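import Pool.Agent.K3h36.E2x.Local

/-!
# FACT: the determinant of a family of elements of `F^*` and of the minus part
-/

set_option autoImplicit false

open NumberField IsDedekindDomain Filter Topology

noncomputable section

namespace Pool.Agent.K3h36.E2x

open Pool.Agent.K3h30.RS Pool.Agent.K3h56.E2 NumberField.InfinitePlace

variable {F K : Type} [Field F] [NumberField F] [Field K] [NumberField K] [Algebra F K]

theorem tau_tau {τ : K ≃ₐ[F] K} (h : Quad F K τ) (x : K) : τ (τ x) = x := by
  rcases Pool.Agent.K3h50.E2.aut_eq h (τ.trans τ) with h1 | h1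
  · have h2 := congrArg (fun σ : K ≃ₐ[F] K => σ x) h1
    exact h2
  · exfalso
    apply h.ne
    ext z
    have h2 := congrArg (fun σ : K ≃ₐ[F] K => σ z) h1
    have h3 : τ (τ z) = τ z := h2
    exact τ.injective h3

theorem av_inv (Q : Place K) (x : K) : av Q x⁻¹ = (av Q x)⁻¹ := by
  rcases Q with w | w
  · show w x⁻¹ ^ w.mult = (w x ^ w.mult)⁻¹
    rw [map_inv₀, inv_pow]
  · show HeightOneSpectrum.adicAbv K w x⁻¹ = (HeightOneSpectrum.adicAbv K w x)⁻¹
    exact map_inv₀ _ _

theorem local_all (τ : K ≃ₐ[F] K) (hQ : Quad F K τ) (q : Place F) :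
    (∃ P P' : Place K, P ≠ P' ∧ (∀ Q : Place K, Below Q q ↔ Q = P ∨ Q = P') ∧
      (∀ z : K, av P' z = av P (τ z)) ∧ ∀ y : F, av P (algebraMap F K y) = av q y) ∨
    (∃ P : Place K, (∀ Q : Place K, Below Q q ↔ Q = P) ∧
      (∀ z : K, av P (τ z) = av P z) ∧ ∀ y : F, av P (algebraMap F K y) = av q y ^ 2) := by
  rcases q with v | v
  · rcases local_inf τ hQ v with ⟨P, P', hne, h1, h2, h3⟩ | ⟨P, h1, h2, h3⟩
    · left
      refine ⟨Sum.inl P, Sum.inl P', fun h => hne (Sum.inl_injective h), ?_, h2, h3⟩
      rintro (Q | Q)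
      · show Q.comap (algebraMap F K) = v ↔ _
        rw [h1 Q]
        simp
      · show False ↔ _
        simp
    · right
      refine ⟨Sum.inl P, ?_, h2, h3⟩
      rintro (Q | Q)
      · show Q.comap (algebraMap F K) = v ↔ _
        rw [h1 Q]
        simp
      · show False ↔ _
        simp
  · rcases local_fin τ hQ v with ⟨P, P', hne, h1, h2, h3⟩ | ⟨P, h1, h2, h3⟩
    · left
      refine ⟨Sum.inr P, Sum.inr P', fun h => hne (Sum.inr_injective h), ?_, h2, h3⟩
      rintro (Q | Q)
      · show False ↔ _
        simp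
      · show Above {v} Q ↔ _
        rw [h1 Q]
        simp
    · right
      refine ⟨Sum.inr P, ?_, h2, h3⟩
      rintro (Q | Q)
      · show False ↔ _
        simp
      · show Above {v} Q ↔ _
        rw [h1 Q]
        simp

omit [NumberField K] in
theorem below_unique {Q : Place K} {q q' : Place F} (h : Below Q q) (h' : Below Q q') :
    q = q' := by
  rcases Q with Q | Q <;> rcases q with q | q <;> rcases q' with q' | q'
  all_goals first | exact h.elim | exact h'.elim | skip
  · have h1 : Q.comap (algebraMap F K) = q := h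
    have h2 : Q.comap (algebraMap F K) = q' := h'
    rw [← h1, ← h2]
  · obtain ⟨v, hv, h1⟩ := (show Above {q} Q from h)
    obtain ⟨v', hv', h2⟩ := (show Above {q'} Q from h')
    rw [Set.mem_singleton_iff] at hv hv'
    subst hv
    subst hv'
    rw [HeightOneSpectrum.ext (h1.symm.trans h2)]

theorem other {τ : K ≃ₐ[F] K} (hQ : Quad F K τ) (q : Place F) (Q : Place K) (h : Below Q q)
    (hz : ∃ z : K, av Q (τ z) ≠ av Q z) :
    ∃ Q' : Place K, Below Q' q ∧ Q' ≠ Q ∧ (∀ z, av Q' z = av Q (τ z)) ∧
      ∀ y : F, av Q (algebraMap F K y) = av q y := by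
  rcases local_all τ hQ q with ⟨P, P', hne, h1, h2, h3⟩ | ⟨P, h1, h2, h3⟩
  · rcases (h1 Q).1 h with rfl | rfl
    · exact ⟨P', (h1 P').2 (Or.inr rfl), hne.symm, h2, h3⟩
    · refine ⟨P, (h1 P).2 (Or.inl rfl), hne, fun z => ?_, fun y => ?_⟩
      · rw [h2, tau_tau hQ]
      · rw [h2, τ.commutes, h3]
  · obtain ⟨z, hz⟩ := hz
    have := (h1 Q).1 h
    subst this
    exact absurd (h2 z) hz

/-- the places of a set -/
abbrev PF (F : Type) [Field F] [NumberField F] (S : Finset (HeightOneSpectrum (𝓞 F))) : Type :=
  InfinitePlace F ⊕ {v : HeightOneSpectrum (𝓞 F) // v ∈ S}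

/-- the corresponding place -/
def toF {S : Finset (HeightOneSpectrum (𝓞 F))} : PF F S → Place F := Sum.map id Subtype.val

theorem toF_inj {S : Finset (HeightOneSpectrum (𝓞 F))} :
    Function.Injective (toF : PF F S → Place F) :=
  Sum.map_injective.2 ⟨Function.injective_id, Subtype.val_injective⟩

theorem toF_mem {S : Finset (HeightOneSpectrum (𝓞 F))} (q : PF F S) (v : HeightOneSpectrum (𝓞 F))
    (h : toF q = Sum.inr v) : v ∈ S := by
  rcases q with q | q
  · cases h
  · have h1 : (Sum.inr q.1 : Place F) = Sum.inr v := h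
    rw [← Sum.inr_injective h1]
    exact q.2

theorem toF_surj {S : Finset (HeightOneSpectrum (𝓞 F))} (q : Place F)
    (h : ∀ v, q = Sum.inr v → v ∈ S) : ∃ q' : PF F S, toF q' = q := by
  rcases q with v | v
  · exact ⟨Sum.inl v, rfl⟩
  · exact ⟨Sum.inr ⟨v, h v rfl⟩, rfl⟩

theorem inA {S : Finset (HeightOneSpectrum (𝓞 F))} {A : Finset (HeightOneSpectrum (𝓞 K))}
    (hA : Over S A) (q : PF F S) (Q : Place K) (h : Below Q (toF q)) :
    ∀ w, Q = Sum.inr w → w ∈ A := by
  rintro w rfl
  rcases q with q | q
  · exact h.elim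
  · exact (hA w).2 ⟨q.1, q.2, h⟩

theorem card_PF (S : Finset (HeightOneSpectrum (𝓞 F))) :
    Fintype.card (PF F S) = Fintype.card (InfinitePlace F) + S.card := by
  rw [Fintype.card_sum, Fintype.card_coe]

theorem exW {τ : K ≃ₐ[F] K} (hQ : Quad F K τ) {S : Finset (HeightOneSpectrum (𝓞 F))}
    {A : Finset (HeightOneSpectrum (𝓞 K))} (hA : Over S A) {ι : Type} [Fintype ι]
    (u : ι → Place K) (p : ι → Place F) (hb : ∀ a, Below (u a) (p a))
    (hp : Function.Injective p) (hz : ∀ a, ∃ z : K, av (u a) (τ z) ≠ av (u a) z)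
    (huA : ∀ a w, u a = Sum.inr w → w ∈ A)
    (hc : Fintype.card ι + (Fintype.card (InfinitePlace F) + S.card) =
      Fintype.card (InfinitePlace K) + A.card) (q : PF F S) :
    ∃ W : Place K, Below W (toF q) ∧
      ((∃ a, p a = toF q ∧ W ≠ u a ∧ (∀ z, av W z = av (u a) (τ z)) ∧
        ∀ y : F, av (u a) (algebraMap F K y) = av (toF q) y) ∨
      ((∀ a, p a ≠ toF q) ∧ (∀ z, av W (τ z) = av W z) ∧
        ∀ y : F, av W (algebraMap F K y) = av (toF q) y ^ 2)) := by
  classical
  by_cases h : ∃ a, p a = toF q
  · obtain ⟨a, ha⟩ := h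
    obtain ⟨Q', h1, h2, h3, h4⟩ := other hQ (p a) (u a) (hb a) (hz a)
    rw [ha] at h1 h4
    exact ⟨Q', h1, Or.inl ⟨a, ha, h2, h3, h4⟩⟩
  · rcases local_all τ hQ (toF q) with ⟨P, P', hne, h1, h2, h3⟩ | ⟨P, h1, h2, h3⟩
    · exfalso
      have hex : ∀ q' : PF F S, ∃ Q : Place K, Below Q (toF q') ∧ (∀ a, p a = toF q' → Q ≠ u a) ∧
          (q' = q → Q = P) := by
        intro q'
        by_cases h' : ∃ a, p a = toF q'
        · obtain ⟨a, ha⟩ := h'
          obtain ⟨Q', k1, k2, _, _⟩ := other hQ (p a) (u a) (hb a) (hz a)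
          refine ⟨Q', ?_, ?_, ?_⟩
          · rw [← ha]
            exact k1
          · intro a' ha'
            have : a' = a := hp (ha'.trans ha.symm)
            rw [this]
            exact k2
          · rintro rfl
            exact absurd ⟨a, ha⟩ h
        · by_cases hq : q' = q
          · subst hq
            exact ⟨P, (h1 P).2 (Or.inl rfl), fun a ha => absurd ⟨a, ha⟩ h', fun _ => rfl⟩
          · rcases local_all τ hQ (toF q') with ⟨R, R', _, k1, _, _⟩ | ⟨R, k1, _, _⟩
            · exact ⟨R, (k1 R).2 (Or.inl rfl), fun a ha => absurd ⟨a, ha⟩ h',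
                fun h0 => absurd h0 hq⟩
            · exact ⟨R, (k1 R).2 rfl, fun a ha => absurd ⟨a, ha⟩ h', fun h0 => absurd h0 hq⟩
      choose f hf1 hf2 hf3 using hex
      let g : PF F S ⊕ Option ι → Place K := Sum.elim f fun o => o.elim P' u
      have hbel : ∀ x : PF F S ⊕ Option ι, ∃ q' : Place F, Below (g x) q' := by
        rintro (x | _ | a)
        · exact ⟨_, hf1 x⟩
        · exact ⟨_, (h1 P').2 (Or.inr rfl)⟩
        · exact ⟨_, hb a⟩
      have hP' : Below P' (toF q) := (h1 P').2 (Or.inr rfl)
      have hginj : Function.Injective g := by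
        rintro (x | _ | a) (x' | _ | a') hg
        · have e1 : f x = f x' := hg
          have e2 := hf1 x
          rw [e1] at e2
          rw [toF_inj (below_unique e2 (hf1 x'))]
        · have e1 : f x = P' := hg
          have e2 := hf1 x
          rw [e1] at e2
          have e3 : x = q := toF_inj (below_unique e2 hP')
          exact absurd ((hf3 x e3).symm.trans e1) hne
        · have e1 : f x = u a' := hg
          have e2 := hf1 x
          rw [e1] at e2
          exact absurd e1 (hf2 x a' (below_unique (hb a') e2))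
        · have e1 : f x' = P' := hg.symm
          have e2 := hf1 x'
          rw [e1] at e2
          have e3 : x' = q := toF_inj (below_unique e2 hP')
          exact absurd ((hf3 x' e3).symm.trans e1) hne
        · rfl
        · have e1 : P' = u a' := hg
          have e2 := hb a'
          rw [← e1] at e2
          exact absurd ⟨a', below_unique e2 hP'⟩ h
        · have e1 : f x' = u a := hg.symm
          have e2 := hf1 x'
          rw [e1] at e2
          exact absurd e1 (hf2 x' a (below_unique (hb a) e2))
        · have e1 : P' = u a := hg.symm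
          have e2 := hb a
          rw [← e1] at e2
          exact absurd ⟨a, below_unique e2 hP'⟩ h
        · have e1 : u a = u a' := hg
          have e2 := hb a
          rw [e1] at e2
          rw [hp (below_unique e2 (hb a'))]
      have hgA : ∀ x, ∃ x' : PF K A, toF x' = g x := by
        rintro (x | _ | a)
        · exact toF_surj _ (inA hA x _ (hf1 x))
        · exact toF_surj _ (inA hA q _ hP')
        · exact toF_surj _ (huA a)
      choose g' hg' using hgA
      have hg'inj : Function.Injective g' := by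
        intro x x' hx
        apply hginj
        rw [← hg', ← hg', hx]
      have hcard := Fintype.card_le_of_injective g' hg'inj
      rw [Fintype.card_sum, Fintype.card_option, card_PF, card_PF] at hcard
      omega
    · refine ⟨P, (h1 P).2 rfl, Or.inr ⟨fun a ha => h ⟨a, ha⟩, h2, h3⟩⟩

theorem t_FACT : S_FACT := by
  intro F K _ _ _ _ _ τ hQ S A hA κ ι _ _ _ _ u p hb hp hz huA hκ hι y x hy hx hxm
  have hW := exW hQ hA u p hb hp hz huA hι
  choose W hW1 hW2 using hW
  have hcard : Fintype.card (Option κ) = Fintype.card (PF F S) := by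
    rw [Fintype.card_option, card_PF, hκ]
  let e : Option κ ≃ PF F S := Fintype.equivOfCardEq hcard
  have hxm' : ∀ b, τ ((x b : Kˣ) : K) = ((x b : Kˣ) : K)⁻¹ := by
    intro b
    have h1 : actK τ (x b) = (x b)⁻¹ := hxm b
    have h2 := congrArg (fun z : Kˣ => (z : K)) h1
    rw [Units.val_inv_eq_inv_val] at h2
    exact h2
  let U : κ ⊕ ι → Place K := Sum.elim (fun k => W (e (some k))) u
  let V : κ → Place F := fun k => toF (e (some k))
  have hVinj : Function.Injective V := fun k k' h =>
    Option.some_injective _ (e.injective (toF_inj h))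
  have hUinj : Function.Injective U := by
    rintro (k | a) (k' | a') h
    · have e1 : W (e (some k)) = W (e (some k')) := h
      have e2 := hW1 (e (some k))
      rw [e1] at e2
      rw [hVinj (below_unique e2 (hW1 _))]
    · have e1 : W (e (some k)) = u a' := h
      have e2 := hW1 (e (some k))
      rw [e1] at e2
      have e3 := below_unique (hb a') e2
      rcases hW2 (e (some k)) with ⟨a, ha, hne, _⟩ | ⟨hn, _⟩
      · have e4 : a = a' := hp (ha.trans e3.symm)
        rw [e4] at hne
        exact absurd e1 hne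
      · exact absurd e3 (hn a')
    · have e1 : W (e (some k')) = u a := h.symm
      have e2 := hW1 (e (some k'))
      rw [e1] at e2
      have e3 := below_unique (hb a) e2
      rcases hW2 (e (some k')) with ⟨a', ha, hne, _⟩ | ⟨hn, _⟩
      · have e4 : a' = a := hp (ha.trans e3.symm)
        rw [e4] at hne
        exact absurd e1 hne
      · exact absurd e3 (hn a)
    · have e1 : u a = u a' := h
      have e2 := hb a
      rw [e1] at e2
      rw [hp (below_unique e2 (hb a'))]
  refine ⟨U, V, hUinj, hVinj, ?_, fun k v h => toF_mem _ v h, ?_⟩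
  · rintro (k | a) w h
    · exact inA hA _ _ (hW1 (e (some k))) w h
    · exact huA a w h
  · classical
    let E : Matrix κ ι ℝ := Matrix.of fun k a => if p a = V k then 1 else 0
    let C : Matrix ι κ ℝ := Matrix.of fun a b =>
      Real.log (av (u a) (algebraMap F K ((y b : Fˣ) : F)))
    have hM : logM U (Sum.elim (fun b => Units.map (algebraMap F K : F →* K) (y b)) x) =
        Matrix.fromBlocks 1 (-E) 0 1 *
          Matrix.fromBlocks ((2 : ℝ) • logM V y) 0 C (logM u x) := by
      rw [Matrix.fromBlocks_multiply]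
      have hsum : ∀ (k : κ) (a : ι) (D : ι → ℝ), p a = V k → ∑ a', E k a' * D a' = D a := by
        intro k a D ha
        rw [Finset.sum_eq_single a]
        · show (if p a = V k then (1 : ℝ) else 0) * D a = D a
          rw [if_pos ha, one_mul]
        · intro a' _ hne
          show (if p a' = V k then (1 : ℝ) else 0) * D a' = 0
          rw [if_neg, zero_mul]
          intro h'
          exact hne (hp (h'.trans ha.symm))
        · intro h'
          exact absurd (Finset.mem_univ a) h'
      have hsum0 : ∀ (k : κ) (D : ι → ℝ), (∀ a, p a ≠ V k) → ∑ a', E k a' * D a' = 0 := by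
        intro k D ha
        refine Finset.sum_eq_zero fun a' _ => ?_
        show (if p a' = V k then (1 : ℝ) else 0) * D a' = 0
        rw [if_neg (ha a'), zero_mul]
      ext i j
      rcases i with k | a <;> rcases j with k' | b
      · rw [Matrix.fromBlocks_apply₁₁, Matrix.one_mul, Matrix.neg_mul, Matrix.add_apply,
          Matrix.neg_apply, Matrix.smul_apply, Matrix.mul_apply]
        show Real.log (av (W (e (some k))) (algebraMap F K ((y k' : Fˣ) : F))) =
          (2 : ℝ) • Real.log (av (V k) ((y k' : Fˣ) : F)) + -(∑ a', E k a' * C a' k')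
        rcases hW2 (e (some k)) with ⟨a, ha, _, h1, h2⟩ | ⟨hn, h1, h2⟩
        · rw [hsum k a (fun a' => C a' k') ha]
          show _ = (2 : ℝ) • Real.log (av (V k) ((y k' : Fˣ) : F)) +
            -Real.log (av (u a) (algebraMap F K ((y k' : Fˣ) : F)))
          rw [h1, τ.commutes, h2]
          show Real.log (av (V k) ((y k' : Fˣ) : F)) = _
          rw [smul_eq_mul]
          ring
        · rw [hsum0 k (fun a' => C a' k') hn, h2, Real.log_pow, smul_eq_mul]
          push_cast
          ring
      · rw [Matrix.fromBlocks_apply₁₂, Matrix.mul_zero, zero_add, Matrix.neg_mul,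
          Matrix.neg_apply, Matrix.mul_apply]
        show Real.log (av (W (e (some k))) ((x b : Kˣ) : K)) = -(∑ a', E k a' * logM u x a' b)
        rcases hW2 (e (some k)) with ⟨a, ha, _, h1, h2⟩ | ⟨hn, h1, h2⟩
        · rw [hsum k a (fun a' => logM u x a' b) ha]
          show _ = -Real.log (av (u a) ((x b : Kˣ) : K))
          rw [h1, hxm', av_inv, Real.log_inv]
        · rw [hsum0 k (fun a' => logM u x a' b) hn]
          have h3 := h1 ((x b : Kˣ) : K)
          rw [hxm', av_inv] at h3
          have h4 := congrArg Real.log h3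
          rw [Real.log_inv] at h4
          linarith
      · rw [Matrix.fromBlocks_apply₂₁, Matrix.zero_mul, zero_add, Matrix.one_mul]
        rfl
      · rw [Matrix.fromBlocks_apply₂₂, Matrix.zero_mul, zero_add, Matrix.one_mul]
        rfl
    rw [hM, Matrix.det_mul, Matrix.det_fromBlocks_zero₂₁, Matrix.det_fromBlocks_zero₁₂,
      Matrix.det_one, Matrix.det_one, one_mul, one_mul, Matrix.det_smul, abs_mul, abs_mul,
      abs_pow, abs_two]

end Pool.Agent.K3h36.E2x
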