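import Pool.Agent.K3h56.E2.Stm2
import Pool.Agent.K3h25.E2.Loc
import Pool.Agent.K3h50.E2.Inf

/-!
# Places of a quadratic extension: the local facts for FACT
-/

set_option autoImplicit false

open NumberField IsDedekindDomain Filter Topology

noncomputable section

namespace Pool.Agent.K3h36.E2x

open Pool.Agent.K3h30.RS Pool.Agent.K3h56.E2 NumberField.InfinitePlace

theorem toNN_congr {e e' : NNReal} (h : e = e') (he : e ≠ 0) (he' : e' ≠ 0)
    (z : WithZero (Multiplicative ℤ)) :
    WithZeroMulInt.toNNReal he z = WithZeroMulInt.toNNReal he' z := by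
  subst h
  rfl

theorem toNN_sq {e e' : NNReal} (h : e = e' ^ 2) (he : e ≠ 0) (he' : e' ≠ 0)
    (z : WithZero (Multiplicative ℤ)) :
    WithZeroMulInt.toNNReal he z = WithZeroMulInt.toNNReal he' z ^ 2 := by
  subst h
  by_cases hz : z = 0
  · rw [hz, map_zero, map_zero, zero_pow two_ne_zero]
  · rw [WithZeroMulInt.toNNReal_neg_apply _ hz, WithZeroMulInt.toNNReal_neg_apply _ hz,
      ← zpow_natCast, ← zpow_natCast, ← zpow_mul, ← zpow_mul, mul_comm]

variable {F K : Type} [Field F] [NumberField F] [Field K] [NumberField K] [Algebra F K]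

omit [NumberField K] in
theorem mult_comap_equiv (f : K ≃+* K) (w : InfinitePlace K) :
    (w.comap (f : K →+* K)).mult = w.mult := by
  classical
  rw [mult, mult]
  by_cases h : w.IsReal
  · rw [if_pos h, if_pos ((isReal_comap_iff f).mpr h)]
  · rw [if_neg h, if_neg (fun h' => h ((isReal_comap_iff f).mp h'))]

theorem val_eq (v : HeightOneSpectrum (𝓞 F)) (P : HeightOneSpectrum (𝓞 K))
    (h : Above {v} P) (n : ℕ)
    (h1 : v.asIdeal.map (algebraMap (𝓞 F) (𝓞 K)) ≤ P.asIdeal ^ n)
    (h2 : ¬ v.asIdeal.map (algebraMap (𝓞 F) (𝓞 K)) ≤ P.asIdeal ^ (n + 1)) (y : F) :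
    P.valuation K (algebraMap F K y) = v.valuation F y ^ n := by
  have h3 := (Pool.Agent.K3h25.E2.above_iff v P).1 h
  have : P.asIdeal.LiesOver v.asIdeal := h3.2
  rw [← HeightOneSpectrum.valuation_liesOver K v P, Ideal.ramificationIdx'_spec h1 h2]

theorem local_fin (τ : K ≃ₐ[F] K) (hQ : Quad F K τ) (v : HeightOneSpectrum (𝓞 F)) :
    (∃ P P' : HeightOneSpectrum (𝓞 K), P ≠ P' ∧
      (∀ Q : HeightOneSpectrum (𝓞 K), Above {v} Q ↔ Q = P ∨ Q = P') ∧
      (∀ z : K, av (Sum.inr P' : Place K) z = av (Sum.inr P : Place K) (τ z)) ∧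
      ∀ y : F, av (Sum.inr P : Place K) (algebraMap F K y) = av (Sum.inr v : Place F) y) ∨
    (∃ P : HeightOneSpectrum (𝓞 K), (∀ Q : HeightOneSpectrum (𝓞 K), Above {v} Q ↔ Q = P) ∧
      (∀ z : K, av (Sum.inr P : Place K) (τ z) = av (Sum.inr P : Place K) z) ∧
      ∀ y : F, av (Sum.inr P : Place K) (algebraMap F K y) = av (Sum.inr v : Place F) y ^ 2) := by
  have hL := Pool.Agent.K3h25.E2.t_LOC F K τ hQ v
  by_cases hl : loc K v = 1
  · left
    obtain ⟨P, P', hne, hQ', hv, hm, hN, hN'⟩ := hL.1 hl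
    have hP0 : P.asIdeal ≠ ⊥ := P.ne_bot
    refine ⟨P, P', hne, hQ', fun z => ?_, fun y => ?_⟩
    · show HeightOneSpectrum.adicAbv K P' z = HeightOneSpectrum.adicAbv K P (τ z)
      rw [HeightOneSpectrum.adicAbv_def, HeightOneSpectrum.adicAbv_def, hv]
      congr 1
      apply toNN_congr
      rw [hN, hN']
    · have h1 : P.valuation K (algebraMap F K y) = v.valuation F y ^ 1 := by
        apply val_eq v P ((hQ' P).2 (Or.inl rfl)) 1
        · rw [hm, pow_one]
          exact Ideal.dvd_iff_le.1 (dvd_mul_right _ _)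
        · intro hle
          rw [hm, pow_two] at hle
          have h2 : P.asIdeal * P.asIdeal ∣ P.asIdeal * P'.asIdeal := Ideal.dvd_iff_le.2 hle
          have h3 : P.asIdeal ∣ P'.asIdeal := (mul_dvd_mul_iff_left hP0).1 h2
          have h4 : P'.asIdeal ≤ P.asIdeal := Ideal.dvd_iff_le.1 h3
          have h5 : P'.asIdeal = P.asIdeal := P'.isMaximal.eq_of_le P.isPrime.ne_top h4
          exact hne (HeightOneSpectrum.ext h5.symm)
      show HeightOneSpectrum.adicAbv K P (algebraMap F K y) = HeightOneSpectrum.adicAbv F v y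
      rw [HeightOneSpectrum.adicAbv_def, HeightOneSpectrum.adicAbv_def, h1, pow_one]
      congr 1
      apply toNN_congr
      rw [hN]
  · right
    obtain ⟨P, hQ', hv, hc⟩ := hL.2 hl
    have hab : Above {v} P := (hQ' P).2 rfl
    refine ⟨P, hQ', fun z => ?_, fun y => ?_⟩
    · show HeightOneSpectrum.adicAbv K P (τ z) = HeightOneSpectrum.adicAbv K P z
      rw [HeightOneSpectrum.adicAbv_def, HeightOneSpectrum.adicAbv_def, hv z]
    · show HeightOneSpectrum.adicAbv K P (algebraMap F K y) = HeightOneSpectrum.adicAbv F v y ^ 2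
      have hnp : ∀ n : ℕ, ¬ P.asIdeal ^ n ≤ P.asIdeal ^ (n + 1) := by
        intro n hle
        have h2 : P.asIdeal ^ (n + 1) ∣ P.asIdeal ^ n := Ideal.dvd_iff_le.2 hle
        have h3 : P.asIdeal ^ n * P.asIdeal ∣ P.asIdeal ^ n * 1 := by
          rw [mul_one, ← pow_succ]
          exact h2
        have h4 : P.asIdeal ∣ 1 := (mul_dvd_mul_iff_left (pow_ne_zero n P.ne_bot)).1 h3
        exact P.isPrime.ne_top (Ideal.isUnit_iff.1 (isUnit_of_dvd_one h4))
      rcases hc with ⟨_, hm, hN⟩ | ⟨_, hm, hN⟩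
      · have h1 : P.valuation K (algebraMap F K y) = v.valuation F y ^ 1 := by
          apply val_eq v P hab 1
          · rw [hm, pow_one]
          · rw [hm]
            have := hnp 1
            rwa [pow_one] at this
        rw [HeightOneSpectrum.adicAbv_def, HeightOneSpectrum.adicAbv_def, h1, pow_one,
          ← NNReal.coe_pow]
        congr 1
        apply toNN_sq
        rw [hN, Nat.cast_pow]
      · have h1 : P.valuation K (algebraMap F K y) = v.valuation F y ^ 2 := by
          apply val_eq v P hab 2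
          · rw [hm]
          · rw [hm]
            exact hnp 2
        rw [HeightOneSpectrum.adicAbv_def, HeightOneSpectrum.adicAbv_def, h1, map_pow,
          ← NNReal.coe_pow]
        congr 2
        apply toNN_congr
        rw [hN]

theorem local_inf (τ : K ≃ₐ[F] K) (hQ : Quad F K τ) (v : InfinitePlace F) :
    (∃ P P' : InfinitePlace K, P ≠ P' ∧
      (∀ Q : InfinitePlace K, Q.comap (algebraMap F K) = v ↔ Q = P ∨ Q = P') ∧
      (∀ z : K, av (Sum.inl P' : Place K) z = av (Sum.inl P : Place K) (τ z)) ∧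
      ∀ y : F, av (Sum.inl P : Place K) (algebraMap F K y) = av (Sum.inl v : Place F) y) ∨
    (∃ P : InfinitePlace K, (∀ Q : InfinitePlace K, Q.comap (algebraMap F K) = v ↔ Q = P) ∧
      (∀ z : K, av (Sum.inl P : Place K) (τ z) = av (Sum.inl P : Place K) z) ∧
      ∀ y : F, av (Sum.inl P : Place K) (algebraMap F K y) = av (Sum.inl v : Place F) y ^ 2) := by
  have := Pool.Agent.K3h50.E2.isGalois_of_quad hQ
  obtain ⟨w, hw⟩ := InfinitePlace.comap_surjective (K := K) v
  replace hw : w.comap (algebraMap F K) = v := hw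
  have hov := fun Q : InfinitePlace K => Pool.Agent.K3h50.E2.over_iff hQ w Q
  rw [hw] at hov
  have hmw : (w.comap (τ : K →+* K)).mult = w.mult := mult_comap_equiv (τ : K ≃+* K) w
  by_cases h : w.comap (τ : K →+* K) = w
  · right
    refine ⟨w, fun Q => ?_, fun z => ?_, fun y => ?_⟩
    · rw [hov Q, h, or_self]
    · show w (τ z) ^ w.mult = w z ^ w.mult
      have : w (τ z) = (w.comap (τ : K →+* K)) z := rfl
      rw [this, h]
    · show w (algebraMap F K y) ^ w.mult = (v y ^ v.mult) ^ 2
      have h1 : w (algebraMap F K y) = v y := by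
        rw [← hw]
        rfl
      have hur : ¬ IsUnramified F w := by
        intro hu
        have h2 := isUnramified_iff_stabilizer_eq_bot.1 hu
        have h3 : τ.symm ∈ MulAction.stabilizer (K ≃ₐ[F] K) w := by
          rw [MulAction.mem_stabilizer_iff, InfinitePlace.smul_eq_comap]
          exact h
        rw [h2, Subgroup.mem_bot] at h3
        apply hQ.ne
        have h4 := congrArg AlgEquiv.symm h3
        rw [AlgEquiv.symm_symm] at h4
        exact h4
      obtain ⟨hc, hr⟩ := not_isUnramified_iff.1 hur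
      rw [hw] at hr
      rw [h1, mult_isComplex ⟨w, hc⟩, mult_isReal ⟨v, hr⟩, pow_one]
  · left
    refine ⟨w, w.comap (τ : K →+* K), fun h' => h h'.symm, fun Q => ?_, fun z => ?_, fun y => ?_⟩
    · rw [hov Q]
    · show (w.comap (τ : K →+* K)) z ^ (w.comap (τ : K →+* K)).mult = w (τ z) ^ w.mult
      rw [hmw]
      rfl
    · show w (algebraMap F K y) ^ w.mult = v y ^ v.mult
      have h1 : w (algebraMap F K y) = v y := by
        rw [← hw]
        rfl
      have hu : IsUnramified F w := by
        rw [isUnramified_iff_stabilizer_eq_bot, eq_bot_iff]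
        intro σ hσ
        rw [MulAction.mem_stabilizer_iff, InfinitePlace.smul_eq_comap] at hσ
        rw [Subgroup.mem_bot]
        rcases Pool.Agent.K3h50.E2.aut_eq hQ σ.symm with h2 | h2
        · have h4 := congrArg AlgEquiv.symm h2
          rw [AlgEquiv.symm_symm] at h4
          exact h4
        · rw [h2] at hσ
          exact absurd hσ h
      have h5 := hu.eq
      rw [hw] at h5
      rw [h1, h5]

end Pool.Agent.K3h36.E2x
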